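import Mathlib
import Pool.Agent.Q215.CohenRO
import Pool.Agent.Q215.CohenRO2

/-!
Two non-trivial strong Fraisse classes with countably many isomorphism types, in a language with
one binary relation symbol, whose Cohen forcings on every set of size at least `ℵ_2` have
non-isomorphic Boolean completions.
-/

open Set Cardinal Q215.CohenRO

namespace Pool.Agent.Results.MP_01c350_lc.NotEquivalent

/-! ### Relational languages, structures and strong Fraisse classes -/

/-- A relational language: relation symbols with arities. -/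
structure RelLang where
  Sym : Type
  ar : Sym → ℕ

/-- An `L`-structure with underlying set `M`: an interpretation of every relation symbol. -/
def Str (L : RelLang) (M : Type) : Type := ∀ R : L.Sym, (Fin (L.ar R) → M) → Prop

/-- Embeddings of `L`-structures. -/
def IsEmb {L : RelLang} {M N : Type} (f : M → N) (s : Str L M) (t : Str L N) : Prop :=
  Function.Injective f ∧ ∀ (R : L.Sym) (a : Fin (L.ar R) → M), s R a ↔ t R (f ∘ a)

/-- Isomorphic structures. -/
def Iso {L : RelLang} {M N : Type} (s : Str L M) (t : Str L N) : Prop :=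
  ∃ e : M ≃ N, ∀ (R : L.Sym) (a : Fin (L.ar R) → M), s R a ↔ t R (e ∘ a)

/-- The substructure with underlying set `A`. -/
def Str.sub {L : RelLang} {M : Type} (s : Str L M) (A : Set M) : Str L A :=
  fun R a => s R (fun i => (a i : M))

/-- A class of `L`-structures. -/
def StrClass (L : RelLang) : Type 1 := ∀ M : Type, Str L M → Prop

/-- Strong Fraisse classes. -/
structure StrongFraisse {L : RelLang} (K : StrClass L) : Prop where
  finite : ∀ (M : Type) (s : Str L M), K M s → Finite M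
  iso : ∀ (M N : Type) (s : Str L M) (t : Str L N), Iso s t → K M s → K N t
  sub : ∀ (M : Type) (s : Str L M) (A : Set M), K M s → K A (s.sub A)
  joint : ∀ (M N : Type) (s : Str L M) (t : Str L N), K M s → K N t →
    ∃ (P : Type) (u : Str L P) (f : M → P) (g : N → P), K P u ∧ IsEmb f s u ∧ IsEmb g t u
  amalg : ∀ (A B C : Type) (r : Str L A) (s : Str L B) (t : Str L C) (f : A → B) (g : A → C),
    K A r → K B s → K C t → IsEmb f r s → IsEmb g r t →
    ∃ (D : Type) (u : Str L D) (f' : B → D) (g' : C → D), K D u ∧ IsEmb f' s u ∧ IsEmb g' t u ∧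
      (∀ a, f' (f a) = g' (g a)) ∧ ∀ b c, f' b = g' c → ∃ a, f a = b ∧ g a = c

/-- Atomic formulas with variables `x_i`, `i : Fin n`. -/
inductive Atomic (L : RelLang) (n : ℕ) : Type
  | eq (i j : Fin n) : Atomic L n
  | rel (R : L.Sym) (v : Fin (L.ar R) → Fin n) : Atomic L n

/-- Truth of an atomic formula. -/
def Atomic.Holds {L : RelLang} {n : ℕ} {M : Type} (s : Str L M) (a : Fin n → M) :
    Atomic L n → Prop
  | .eq i j => a i = a j
  | .rel R v => s R (a ∘ v)

/-- Literals: atomic formulas and their negations. -/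
inductive Literal (L : RelLang) (n : ℕ) : Type
  | pos (p : Atomic L n) : Literal L n
  | neg (p : Atomic L n) : Literal L n

/-- Truth of a literal. -/
def Literal.Holds {L : RelLang} {n : ℕ} {M : Type} (s : Str L M) (a : Fin n → M) :
    Literal L n → Prop
  | .pos p => p.Holds s a
  | .neg p => ¬ p.Holds s a

/-- `K` is trivial: every literal is decided on the non-redundant tuples. -/
def Trivial {L : RelLang} (K : StrClass L) : Prop :=
  ∀ (n : ℕ) (p : Literal L n),
    (∀ (M : Type) (s : Str L M), K M s → ∀ a : Fin n → M, Function.Injective a → p.Holds s a) ∨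
    (∀ (M : Type) (s : Str L M), K M s → ∀ a : Fin n → M, Function.Injective a → ¬ p.Holds s a)

/-- `K` has at most `κ` isomorphism types. -/
def AtMostTypes {L : RelLang} (K : StrClass L) (κ : Cardinal) : Prop :=
  ∃ (I : Type) (F : I → Σ M : Type, Str L M), #I ≤ κ ∧
    ∀ (M : Type) (s : Str L M), K M s → ∃ i, Iso s (F i).2

/-! ### The forcing -/

/-- The conditions of `Cohen_X(K)`: the structures in `K` whose underlying set is a finite subset
of `X`. -/
structure Cond {L : RelLang} (K : StrClass L) (X : Type) where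
  dom : Set X
  fin : dom.Finite
  str : Str L dom
  mem : K dom str

/-- `p` is stronger than `q` when `q` is a substructure of `p`. -/
def Stronger {L : RelLang} {K : StrClass L} {X : Type} (p q : Cond K X) : Prop :=
  ∃ h : q.dom ⊆ p.dom, ∀ (R : L.Sym) (a : Fin (L.ar R) → q.dom),
    q.str R a ↔ p.str R (fun i => ⟨(a i : X), h (a i).2⟩)

instance {L : RelLang} (K : StrClass L) (X : Type) : Preorder (Cond K X) where
  le p q := Stronger p q
  le_refl p := ⟨subset_rfl, fun _ _ => Iff.rfl⟩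
  le_trans p q r := fun ⟨h1, h2⟩ ⟨h3, h4⟩ => ⟨h3.trans h1, fun R a => (h4 R a).trans (h2 R _)⟩

/-- Forcing equivalence: the Boolean completions are isomorphic. Here `RO P` is the set of all
regular open sets of conditions of `P` ordered by inclusion. -/
def ForcingEquiv (P Q : Type) [Preorder P] [Preorder Q] : Prop := Nonempty (RO P ≃o RO Q)

/-- The question for an infinite set `X`. -/
def Question (X : Type) : Prop :=
  ∀ (L₀ L₁ : RelLang) (K₀ : StrClass L₀) (K₁ : StrClass L₁),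
    StrongFraisse K₀ → StrongFraisse K₁ → ¬ Trivial K₀ → ¬ Trivial K₁ →
    AtMostTypes K₀ #X → AtMostTypes K₁ #X → ForcingEquiv (Cond K₀ X) (Cond K₁ X)

/-! ### Transfer of the completion -/

lemma roIso {C P : Type} [Preorder C] [Preorder P] (f : C → P) (hs : Function.Surjective f)
    (hf : ∀ p q, p ≤ q ↔ f p ≤ f q) : Nonempty (RO C ≃o RO P) := by
  have pre : ∀ U : Set P, IsRegOpen U → IsRegOpen (f ⁻¹' U) := by
    intro U hU
    refine ⟨fun p hp q hq => hU.down _ hp _ ((hf q p).1 hq), fun p hp => hU.reg _ fun q hq => ?_⟩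
    obtain ⟨q', rfl⟩ := hs q
    obtain ⟨r, hr, hrU⟩ := hp q' ((hf q' p).2 hq)
    exact ⟨f r, (hf r q').1 hr, hrU⟩
  have im : ∀ V : Set C, IsRegOpen V → f ⁻¹' (f '' V) = V := by
    intro V hV
    ext c
    constructor
    · rintro ⟨d, hd, hdc⟩
      exact hV.down d hd c ((hf c d).2 (le_of_eq hdc.symm))
    · exact fun h => ⟨c, h, rfl⟩
  have imr : ∀ V : Set C, IsRegOpen V → IsRegOpen (f '' V) := by
    intro V hV
    refine ⟨?_, ?_⟩
    · rintro - ⟨p, hp, rfl⟩ q hq
      obtain ⟨q', rfl⟩ := hs q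
      exact ⟨q', hV.down p hp q' ((hf q' p).2 hq), rfl⟩
    · intro p hp
      obtain ⟨p', rfl⟩ := hs p
      refine ⟨p', hV.reg p' fun q hq => ?_, rfl⟩
      obtain ⟨r, hr, hrU⟩ := hp (f q) ((hf q p').1 hq)
      obtain ⟨r', hr', rfl⟩ := hrU
      exact ⟨r', (hf r' q).2 hr, hr'⟩
  refine ⟨⟨⟨fun V => ⟨f '' V.1, imr V.1 V.2⟩, fun U => ⟨f ⁻¹' U.1, pre U.1 U.2⟩, ?_, ?_⟩, ?_⟩⟩
  · intro V
    exact Subtype.ext (im V.1 V.2)
  · intro U
    exact Subtype.ext (image_preimage_eq U.1 hs)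
  · intro V W
    constructor
    · intro h
      have h' : f '' V.1 ⊆ f '' W.1 := h
      have := preimage_mono (f := f) h'
      rw [im V.1 V.2, im W.1 W.2] at this
      exact this
    · intro h
      exact image_mono (f := f) h

/-! ### The two classes -/

/-- The language with one binary relation symbol. -/
abbrev L₂ : RelLang := ⟨Unit, fun _ => 2⟩

/-- The binary relation of a structure. -/
def Rel {M : Type} (s : Str L₂ M) (x y : M) : Prop := s () ![x, y]

/-- The structure of a binary relation. -/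
def ofRel {M : Type} (E : M → M → Prop) : Str L₂ M := fun _ a => E (a 0) (a 1)

lemma rel_ofRel {M : Type} (E : M → M → Prop) (x y : M) : Rel (ofRel E) x y ↔ E x y := Iff.rfl

lemma apply_eq {M : Type} (s : Str L₂ M) (R : L₂.Sym) (a : Fin 2 → M) :
    s R a ↔ Rel s (a 0) (a 1) := by
  have : a = ![a 0, a 1] := by
    funext i; fin_cases i <;> rfl
  unfold Rel
  rw [← this]

lemma emb_iff {M N : Type} (f : M → N) (s : Str L₂ M) (t : Str L₂ N) :
    (∀ (R : L₂.Sym) (a : Fin (L₂.ar R) → M), s R a ↔ t R (f ∘ a)) ↔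
      ∀ x y, Rel s x y ↔ Rel t (f x) (f y) := by
  constructor
  · intro h x y
    have := h () ![x, y]
    rw [apply_eq t] at this
    exact this
  · intro h R a
    rw [apply_eq s, apply_eq t]
    exact h _ _

/-- Finite structures whose relation is contained in the diagonal: these are the finite sets with
a unary predicate, and their Cohen forcing is the ordinary one. -/
def K0 : StrClass L₂ := fun M s => Finite M ∧ ∀ x y, Rel s x y → x = y

/-- Finite triangle-free graphs. -/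
def K1 : StrClass L₂ := fun M s => Finite M ∧ (∀ x, ¬ Rel s x x) ∧ (∀ x y, Rel s x y → Rel s y x) ∧
  ∀ x y z, Rel s x y → Rel s y z → ¬ Rel s x z

/-! ### Amalgamation -/

lemma pushout {A B C : Type} (f : A → B) (g : A → C) (hf : Function.Injective f)
    (hg : Function.Injective g) (hB : Finite B) (hC : Finite C) :
    ∃ (D : Type) (f' : B → D) (g' : C → D), Finite D ∧ Function.Injective f' ∧
      Function.Injective g' ∧ (∀ a, f' (f a) = g' (g a)) ∧
      ∀ b c, f' b = g' c → ∃ a, f a = b ∧ g a = c := by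
  classical
  let D := B ⊕ {c : C // ¬ ∃ a, g a = c}
  let g' : C → D := fun c => if h : ∃ a, g a = c then Sum.inl (f h.choose) else Sum.inr ⟨c, h⟩
  have hg1 : ∀ c (h : ∃ a, g a = c), g' c = Sum.inl (f h.choose) := fun c h => dif_pos h
  have hg2 : ∀ c (h : ¬ ∃ a, g a = c), g' c = Sum.inr ⟨c, h⟩ := fun c h => dif_neg h
  refine ⟨D, Sum.inl, g', inferInstance, Sum.inl_injective, ?_, ?_, ?_⟩
  · intro c d hcd
    by_cases hc : ∃ a, g a = c <;> by_cases hd : ∃ a, g a = d
    · rw [hg1 c hc, hg1 d hd] at hcd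
      have h1 := hf (Sum.inl_injective hcd)
      have h2 := hc.choose_spec
      have h3 := hd.choose_spec
      rw [← h2, ← h3, h1]
    · rw [hg1 c hc, hg2 d hd] at hcd
      exact absurd hcd (by simp)
    · rw [hg2 c hc, hg1 d hd] at hcd
      exact absurd hcd (by simp)
    · rw [hg2 c hc, hg2 d hd] at hcd
      exact congrArg Subtype.val (Sum.inr_injective hcd)
  · intro a
    have h : ∃ a', g a' = g a := ⟨a, rfl⟩
    rw [hg1 _ h, hg h.choose_spec]
  · intro b c hbc
    by_cases hc : ∃ a, g a = c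
    · rw [hg1 c hc] at hbc
      exact ⟨hc.choose, (Sum.inl_injective hbc).symm, hc.choose_spec⟩
    · rw [hg2 c hc] at hbc
      exact absurd hbc (by simp)

lemma fraisse_of_free (K : StrClass L₂) (hfin : ∀ (M : Type) (s : Str L₂ M), K M s → Finite M)
    (hiso : ∀ (M N : Type) (s : Str L₂ M) (t : Str L₂ N), Iso s t → K M s → K N t)
    (hsub : ∀ (M : Type) (s : Str L₂ M) (A : Set M), K M s → K A (s.sub A))
    (ham : ∀ (B C D : Type) (s : Str L₂ B) (t : Str L₂ C) (u : Str L₂ D) (f : B → D) (g : C → D),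
      Finite D → Function.Injective f → Function.Injective g →
      (∀ d d', Rel u d d' ↔ (∃ b b', f b = d ∧ f b' = d' ∧ Rel s b b') ∨
        (∃ c c', g c = d ∧ g c' = d' ∧ Rel t c c')) →
      (∀ b c b' c', f b = g c → f b' = g c' → (Rel s b b' ↔ Rel t c c')) →
      K B s → K C t → K D u) : StrongFraisse K := by
  have key : ∀ (A B C : Type) (r : Str L₂ A) (s : Str L₂ B) (t : Str L₂ C) (f : A → B) (g : A → C),
    K A r → K B s → K C t → IsEmb f r s → IsEmb g r t →
    ∃ (D : Type) (u : Str L₂ D) (f' : B → D) (g' : C → D), K D u ∧ IsEmb f' s u ∧ IsEmb g' t u ∧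
      (∀ a, f' (f a) = g' (g a)) ∧ ∀ b c, f' b = g' c → ∃ a, f a = b ∧ g a = c := by
    intro A B C r s t f g hA hB hC hf hg
    obtain ⟨D, f', g', hD, hf', hg', h1, h2⟩ := pushout f g hf.1 hg.1 (hfin _ _ hB) (hfin _ _ hC)
    let u : Str L₂ D := ofRel fun d d' => (∃ b b', f' b = d ∧ f' b' = d' ∧ Rel s b b') ∨
        (∃ c c', g' c = d ∧ g' c' = d' ∧ Rel t c c')
    have hu : ∀ d d', Rel u d d' ↔ (∃ b b', f' b = d ∧ f' b' = d' ∧ Rel s b b') ∨
        (∃ c c', g' c = d ∧ g' c' = d' ∧ Rel t c c') := fun d d' => Iff.rfl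
    have hrs := (emb_iff f r s).1 hf.2
    have hrt := (emb_iff g r t).1 hg.2
    have hc : ∀ b c b' c', f' b = g' c → f' b' = g' c' → (Rel s b b' ↔ Rel t c c') := by
      intro b c b' c' e1 e2
      obtain ⟨a, rfl, rfl⟩ := h2 b c e1
      obtain ⟨a', rfl, rfl⟩ := h2 b' c' e2
      exact (hrs a a').symm.trans (hrt a a')
    refine ⟨D, u, f', g', ham B C D s t u f' g' hD hf' hg' hu hc hB hC, ⟨hf', ?_⟩, ⟨hg', ?_⟩,
      h1, h2⟩
    · rw [emb_iff]
      intro x y
      rw [hu]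
      constructor
      · exact fun h => Or.inl ⟨x, y, rfl, rfl, h⟩
      · rintro (⟨b, b', e1, e2, h⟩ | ⟨c, c', e1, e2, h⟩)
        · rw [← hf' e1, ← hf' e2]; exact h
        · exact (hc x c y c' e1.symm e2.symm).2 h
    · rw [emb_iff]
      intro x y
      rw [hu]
      constructor
      · exact fun h => Or.inr ⟨x, y, rfl, rfl, h⟩
      · rintro (⟨b, b', e1, e2, h⟩ | ⟨c, c', e1, e2, h⟩)
        · exact (hc b x b' y e1 e2).1 h
        · rw [← hg' e1, ← hg' e2]; exact h
  refine ⟨hfin, hiso, hsub, ?_, key⟩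
  intro M N s t hM hN
  have h0 : K (∅ : Set M) (s.sub ∅) := hsub M s ∅ hM
  obtain ⟨D, u, f', g', hD, hf', hg', -, -⟩ := key (∅ : Set M) M N (s.sub ∅) s t Subtype.val
    (fun x => absurd x.2 (notMem_empty _)) h0 hM hN
    ⟨Subtype.val_injective, fun R a => Iff.rfl⟩
    ⟨fun x => absurd x.2 (notMem_empty _), fun R a =>
      absurd (a (0 : Fin 2)).2 (notMem_empty _)⟩
  exact ⟨D, u, f', g', hD, hf', hg'⟩

lemma iso_rel {M N : Type} {s : Str L₂ M} {t : Str L₂ N} (h : Iso s t) :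
    ∃ e : M ≃ N, ∀ x y, Rel s x y ↔ Rel t (e x) (e y) := by
  obtain ⟨e, he⟩ := h
  exact ⟨e, (emb_iff e s t).1 he⟩

lemma rel_sub {M : Type} (s : Str L₂ M) (A : Set M) (x y : A) :
    Rel (s.sub A) x y ↔ Rel s x y := by
  have h : (fun i => ((![x, y] : Fin 2 → A) i : M)) = ![(x : M), (y : M)] := by
    funext i; fin_cases i <;> rfl
  unfold Rel Str.sub
  show s () (fun i => ((![x, y] : Fin 2 → A) i : M)) ↔ _
  rw [h]

theorem fraisse_K0 : StrongFraisse K0 := by
  apply fraisse_of_free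
  · exact fun M s h => h.1
  · rintro M N s t hst ⟨h1, h2⟩
    obtain ⟨e, he⟩ := iso_rel hst
    refine ⟨Finite.of_equiv M e, fun x y h => ?_⟩
    have h3 := h2 (e.symm x) (e.symm y) ((he _ _).2 (by simpa using h))
    exact e.symm.injective h3
  · rintro M s A ⟨h1, h2⟩
    exact ⟨inferInstance, fun x y h => Subtype.ext (h2 x y ((rel_sub s A x y).1 h))⟩
  · rintro B C D s t u f g hD hf hg hu hc ⟨hB, hs⟩ ⟨hC, ht⟩
    refine ⟨hD, fun x y h => ?_⟩
    rcases (hu x y).1 h with ⟨b, b', e1, e2, h⟩ | ⟨c, c', e1, e2, h⟩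
    · rw [← e1, ← e2, hs b b' h]
    · rw [← e1, ← e2, ht c c' h]

theorem fraisse_K1 : StrongFraisse K1 := by
  apply fraisse_of_free
  · exact fun M s h => h.1
  · rintro M N s t hst ⟨h1, h2, h3, h4⟩
    obtain ⟨e, he⟩ := iso_rel hst
    have he' : ∀ x y, Rel t x y ↔ Rel s (e.symm x) (e.symm y) := fun x y => by
      rw [he]; simp
    refine ⟨Finite.of_equiv M e, fun x h => h2 _ ((he' _ _).1 h),
      fun x y h => (he' _ _).2 (h3 _ _ ((he' _ _).1 h)),
      fun x y z ha hb hc => h4 _ _ _ ((he' _ _).1 ha) ((he' _ _).1 hb) ((he' _ _).1 hc)⟩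
  · rintro M s A ⟨h1, h2, h3, h4⟩
    refine ⟨inferInstance, fun x h => h2 _ ((rel_sub s A x x).1 h),
      fun x y h => (rel_sub s A _ _).2 (h3 _ _ ((rel_sub s A _ _).1 h)),
      fun x y z ha hb hc => h4 _ _ _ ((rel_sub s A _ _).1 ha) ((rel_sub s A _ _).1 hb)
        ((rel_sub s A _ _).1 hc)⟩
  · rintro B C D s t u f g hD hf hg hu hc ⟨hB, s1, s2, s3⟩ ⟨hC, t1, t2, t3⟩
    refine ⟨hD, fun x h => ?_, fun x y h => ?_, fun x y z hxy hyz hxz => ?_⟩
    · rcases (hu x x).1 h with ⟨b, b', e1, e2, h⟩ | ⟨c, c', e1, e2, h⟩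
      · have : b = b' := hf (e1.trans e2.symm)
        subst this; exact s1 _ h
      · have : c = c' := hg (e1.trans e2.symm)
        subst this; exact t1 _ h
    · rw [hu]
      rcases (hu x y).1 h with ⟨b, b', e1, e2, h⟩ | ⟨c, c', e1, e2, h⟩
      · exact Or.inl ⟨b', b, e2, e1, s2 _ _ h⟩
      · exact Or.inr ⟨c', c, e2, e1, t2 _ _ h⟩
    · rcases (hu x y).1 hxy with ⟨a1, a2, p1, p2, p3⟩ | ⟨a1, a2, p1, p2, p3⟩ <;>
      rcases (hu y z).1 hyz with ⟨b1, b2, q1, q2, q3⟩ | ⟨b1, b2, q1, q2, q3⟩ <;>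
      rcases (hu x z).1 hxz with ⟨c1, c2, r1, r2, r3⟩ | ⟨c1, c2, r1, r2, r3⟩
      · obtain rfl : a1 = c1 := hf (p1.trans r1.symm)
        obtain rfl : a2 = b1 := hf (p2.trans q1.symm)
        obtain rfl : b2 = c2 := hf (q2.trans r2.symm)
        exact s3 _ _ _ p3 q3 r3
      · obtain rfl : a2 = b1 := hf (p2.trans q1.symm)
        exact s3 _ _ _ p3 q3 ((hc _ _ _ _ (p1.trans r1.symm) (q2.trans r2.symm)).2 r3)
      · obtain rfl : a1 = c1 := hf (p1.trans r1.symm)
        exact s3 _ _ _ p3 ((hc _ _ _ _ (p2.trans q1.symm) (r2.trans q2.symm)).2 q3) r3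
      · obtain rfl : b2 = c2 := hg (q2.trans r2.symm)
        exact t3 _ _ _ ((hc _ _ _ _ (p1.trans r1.symm) (p2.trans q1.symm)).1 p3) q3 r3
      · obtain rfl : b2 = c2 := hf (q2.trans r2.symm)
        exact s3 _ _ _ ((hc _ _ _ _ (r1.trans p1.symm) (q1.trans p2.symm)).2 p3) q3 r3
      · obtain rfl : a1 = c1 := hg (p1.trans r1.symm)
        exact t3 _ _ _ p3 ((hc _ _ _ _ (q1.trans p2.symm) (q2.trans r2.symm)).1 q3) r3
      · obtain rfl : a2 = b1 := hg (p2.trans q1.symm)
        exact t3 _ _ _ p3 q3 ((hc _ _ _ _ (r1.trans p1.symm) (r2.trans q2.symm)).1 r3)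
      · obtain rfl : a1 = c1 := hg (p1.trans r1.symm)
        obtain rfl : a2 = b1 := hg (p2.trans q1.symm)
        obtain rfl : b2 = c2 := hg (q2.trans r2.symm)
        exact t3 _ _ _ p3 q3 r3

/-! ### Countably many types, and non-triviality -/

lemma types (K : StrClass L₂) (hfin : ∀ (M : Type) (s : Str L₂ M), K M s → Finite M) :
    AtMostTypes K ℵ₀ := by
  classical
  refine ⟨Σ n : ℕ, (Fin n → Fin n → Prop), fun i => ⟨Fin i.1, ofRel i.2⟩, ?_, ?_⟩
  · rw [Cardinal.mk_le_aleph0_iff]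
    infer_instance
  · intro M s hM
    have := hfin M s hM
    obtain ⟨n, ⟨e⟩⟩ := Finite.exists_equiv_fin M
    refine ⟨⟨n, fun i j => Rel s (e.symm i) (e.symm j)⟩, e, ?_⟩
    rw [emb_iff]
    intro x y
    rw [rel_ofRel]
    simp

lemma nontrivial_K0 : ¬ Trivial K0 := by
  intro h
  have hK : ∀ P : Prop, K0 Unit (ofRel fun _ _ => P) := fun P =>
    ⟨inferInstance, fun _ _ _ => Subsingleton.elim _ _⟩
  rcases h 1 (.pos (.rel () (fun _ => 0))) with h | h
  · exact h Unit _ (hK False) (fun _ => ()) (Function.injective_of_subsingleton _)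
  · exact h Unit _ (hK True) (fun _ => ()) (Function.injective_of_subsingleton _) _root_.trivial

lemma nontrivial_K1 : ¬ Trivial K1 := by
  intro h
  have hK0 : K1 Bool (ofRel fun _ _ => False) :=
    ⟨inferInstance, fun _ h => h, fun _ _ h => h, fun _ _ _ h => h.elim⟩
  have hK1 : K1 Bool (ofRel fun x y => x ≠ y) :=
    ⟨inferInstance, fun _ h => h rfl, fun _ _ h => Ne.symm h, fun x y z h1 h2 h3 => by
      rw [rel_ofRel] at h1 h2 h3
      revert h1 h2 h3
      revert x y z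
      decide⟩
  have hinj : Function.Injective (fun i : Fin 2 => decide (i = 1)) := by
    intro i j hij
    fin_cases i <;> fin_cases j <;> simp_all
  rcases h 2 (.pos (.rel () (fun i => i))) with h | h
  · exact h Bool _ hK0 _ hinj
  · refine h Bool _ hK1 _ hinj ?_
    show decide ((0 : Fin 2) = 1) ≠ decide ((1 : Fin 2) = 1)
    decide

/-! ### Comparison with the concrete forcing notions -/

lemma stronger_iff {K : StrClass L₂} {X : Type} (p q : Cond K X) :
    p ≤ q ↔ ∃ h : q.dom ⊆ p.dom, ∀ (x y : q.dom), Rel q.str x y ↔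
      Rel p.str ⟨x, h x.2⟩ ⟨y, h y.2⟩ := by
  show Stronger p q ↔ _
  unfold Stronger
  apply exists_congr
  intro h
  exact emb_iff (fun x : q.dom => (⟨(x : X), h x.2⟩ : p.dom)) q.str p.str

lemma iso_P0 (X : Type) : Nonempty (RO (Cond K0 X) ≃o RO (P0 X)) := by
  let f : Cond K0 X → P0 X := fun p =>
    ⟨p.dom, {x | ∃ h : x ∈ p.dom, Rel p.str ⟨x, h⟩ ⟨x, h⟩}, p.fin, fun x hx => hx.1⟩
  apply roIso f
  · intro q
    have hfin : Finite q.D := q.fin
    refine ⟨⟨q.D, q.fin, ofRel fun x y => x = y ∧ (x : X) ∈ q.S, hfin, fun x y h => h.1⟩, ?_⟩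
    refine P0.ext' rfl ?_
    ext x
    constructor
    · rintro ⟨h1, h2⟩
      exact h2.2
    · intro h
      exact ⟨q.sub h, rfl, h⟩
  · intro p q
    rw [stronger_iff]
    constructor
    · rintro ⟨h, h'⟩
      refine ⟨h, fun x hx => ⟨?_, ?_⟩⟩
      · rintro ⟨h1, h2⟩
        exact ⟨h h1, (h' ⟨x, h1⟩ ⟨x, h1⟩).1 h2⟩
      · rintro ⟨h1, h2⟩
        exact ⟨hx, (h' ⟨x, hx⟩ ⟨x, hx⟩).2 h2⟩
    · rintro ⟨h, h'⟩
      refine ⟨h, fun x y => ⟨?_, ?_⟩⟩
      · intro h1
        obtain rfl := q.mem.2 x y h1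
        obtain ⟨h2, h3⟩ := (h' x x.2).1 ⟨x.2, h1⟩
        exact h3
      · intro h1
        have h4 := p.mem.2 _ _ h1
        have h5 : x = y := Subtype.ext (Subtype.mk.inj h4)
        subst h5
        obtain ⟨h2, h3⟩ := (h' x x.2).2 ⟨h x.2, h1⟩
        exact h3

lemma iso_Q0 (X : Type) : Nonempty (RO (Cond K1 X) ≃o RO (Q0 X)) := by
  let f : Cond K1 X → Q0 X := fun p =>
    { D := p.dom
      E := fun x y => ∃ (hx : x ∈ p.dom) (hy : y ∈ p.dom), Rel p.str ⟨x, hx⟩ ⟨y, hy⟩
      fin := p.fin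
      sub := fun x y ⟨hx, hy, _⟩ => ⟨hx, hy⟩
      symm := fun x y ⟨hx, hy, h⟩ => ⟨hy, hx, p.mem.2.2.1 _ _ h⟩
      irr := fun x ⟨_, _, h⟩ => p.mem.2.1 _ h
      tf := fun x y z ⟨_, _, h1⟩ ⟨_, _, h2⟩ ⟨_, _, h3⟩ => p.mem.2.2.2 _ _ _ h1 h2 h3 }
  apply roIso f
  · intro q
    have hfin : Finite q.D := q.fin
    refine ⟨⟨q.D, q.fin, ofRel fun x y => q.E x y, hfin, fun x h => q.irr x h,
      fun x y h => q.symm x y h, fun x y z h1 h2 h3 => q.tf x y z h1 h2 h3⟩, ?_⟩
    refine Q0.ext' rfl ?_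
    funext x y
    apply propext
    constructor
    · rintro ⟨_, _, h⟩
      exact h
    · intro h
      exact ⟨(q.sub _ _ h).1, (q.sub _ _ h).2, h⟩
  · intro p q
    rw [stronger_iff]
    constructor
    · rintro ⟨h, h'⟩
      refine ⟨h, fun x hx y hy => ⟨?_, ?_⟩⟩
      · rintro ⟨h1, h2, h3⟩
        exact ⟨h h1, h h2, (h' ⟨x, h1⟩ ⟨y, h2⟩).1 h3⟩
      · rintro ⟨h1, h2, h3⟩
        exact ⟨hx, hy, (h' ⟨x, hx⟩ ⟨y, hy⟩).2 h3⟩
    · rintro ⟨h, h'⟩
      refine ⟨h, fun x y => ⟨?_, ?_⟩⟩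
      · intro h1
        obtain ⟨_, _, h3⟩ := (h' x x.2 y y.2).1 ⟨x.2, y.2, h1⟩
        exact h3
      · intro h1
        obtain ⟨_, _, h3⟩ := (h' x x.2 y y.2).2 ⟨h x.2, h y.2, h1⟩
        exact h3

theorem not_equiv (X : Type) (hX : ℵ_ 2 ≤ #X) : ¬ ForcingEquiv (Cond K0 X) (Cond K1 X) := by
  rintro ⟨φ⟩
  obtain ⟨a⟩ := iso_P0 X
  obtain ⟨b⟩ := iso_Q0 X
  exact no_iso_concrete hX (a.symm.trans (φ.trans b))

/-- There are non-trivial strong Fraisse classes `K₀` and `K₁` in the language with one binary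
relation symbol, both with countably many isomorphism types, such that for every set `X` of size
at least `ℵ_2` the completions of `Cohen_X(K₀)` and `Cohen_X(K₁)` are not isomorphic. In
particular the question has a negative answer for every such `X`. -/
theorem result :
    (∃ K₀ K₁ : StrClass L₂, StrongFraisse K₀ ∧ StrongFraisse K₁ ∧ ¬ Trivial K₀ ∧ ¬ Trivial K₁ ∧
      AtMostTypes K₀ ℵ₀ ∧ AtMostTypes K₁ ℵ₀ ∧
      ∀ X : Type, ℵ_ 2 ≤ #X → ¬ ForcingEquiv (Cond K₀ X) (Cond K₁ X)) ∧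
    ∀ X : Type, ℵ_ 2 ≤ #X → ¬ Question X := by
  refine ⟨⟨K0, K1, fraisse_K0, fraisse_K1, nontrivial_K0, nontrivial_K1,
    types K0 fun _ _ h => h.1, types K1 fun _ _ h => h.1, not_equiv⟩, fun X hX h => ?_⟩
  have h0 : ℵ₀ ≤ #X := (aleph0_le_aleph 2).trans hX
  refine not_equiv X hX (h L₂ L₂ K0 K1 fraisse_K0 fraisse_K1 nontrivial_K0 nontrivial_K1 ?_ ?_)
  · obtain ⟨I, F, h1, h2⟩ := types K0 fun _ _ h => h.1
    exact ⟨I, F, h1.trans h0, h2⟩
  · obtain ⟨I, F, h1, h2⟩ := types K1 fun _ _ h => h.1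
    exact ⟨I, F, h1.trans h0, h2⟩

end Pool.Agent.Results.MP_01c350_lc.NotEquivalent
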